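import Pool.Agent.H4.TA.Targets

/-!
# Row (BNM): the mean of `1 / (n + 1)` over all sequences of directions
-/

set_option autoImplicit false

open Finset Pool.Agent.H43.TC Pool.Agent.H4.TA

namespace Pool.Agent.H89.TAS

theorem bnm_dn {k j : ℕ} (l : Fin (j + 1)) (a : Fin k) (d : Fin j → Fin k) :
    dn (Fin.insertNth (α := fun _ => Fin k) l a d) a = dn d a + 1 := by
  unfold dn
  rw [Finset.card_filter, Finset.card_filter, Fin.sum_univ_succAbove _ l]
  simp only [Fin.insertNth_apply_same, Fin.insertNth_apply_succAbove, if_true]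
  omega

theorem bnm_sum {k j : ℕ} (l : Fin (j + 1)) (a : Fin k) :
    ∑ d : Fin j → Fin k, 1 / ((dn d a : ℝ) + 1) =
      ∑ d' : Fin (j + 1) → Fin k, if d' l = a then 1 / (dn d' a : ℝ) else 0 := by
  rw [← (Fin.insertNthEquiv (fun _ : Fin (j + 1) => Fin k) l).sum_comp, Fintype.sum_prod_type]
  rw [Finset.sum_eq_single a]
  · apply Finset.sum_congr rfl
    intro d _
    rw [if_pos (by simp [Fin.insertNthEquiv])]
    have h := bnm_dn l a d
    have h2 : (Fin.insertNthEquiv (fun _ : Fin (j + 1) => Fin k) l) (a, d) =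
        Fin.insertNth (α := fun _ => Fin k) l a d := rfl
    rw [h2, h]
    push_cast
    rfl
  · intro x _ hx
    apply Finset.sum_eq_zero
    intro d _
    rw [if_neg]
    have h2 : (Fin.insertNthEquiv (fun _ : Fin (j + 1) => Fin k) l) (x, d) =
        Fin.insertNth (α := fun _ => Fin k) l x d := rfl
    rw [h2, Fin.insertNth_apply_same]
    exact hx
  · intro h
    exact absurd (Finset.mem_univ a) h

theorem pf_BNM : T_BNM := by
  intro k j a
  have hj : (0 : ℝ) < (j : ℝ) + 1 := by positivity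
  rw [le_div_iff₀ hj, mul_comm]
  have h1 : ((j : ℝ) + 1) * ∑ d : Fin j → Fin k, 1 / ((dn d a : ℝ) + 1) =
      ∑ l : Fin (j + 1), ∑ d' : Fin (j + 1) → Fin k,
        if d' l = a then 1 / (dn d' a : ℝ) else 0 := by
    rw [Finset.sum_congr rfl fun l _ => (bnm_sum l a).symm, Finset.sum_const, Finset.card_univ,
      Fintype.card_fin, nsmul_eq_mul]
    push_cast
    rfl
  rw [h1, Finset.sum_comm]
  have h2 : ∀ d' : Fin (j + 1) → Fin k,
      ∑ l : Fin (j + 1), (if d' l = a then 1 / (dn d' a : ℝ) else 0) ≤ 1 := by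
    intro d'
    rw [← Finset.sum_filter, Finset.sum_const, nsmul_eq_mul]
    change (dn d' a : ℝ) * (1 / (dn d' a : ℝ)) ≤ 1
    rcases Nat.eq_zero_or_pos (dn d' a) with h | h
    · rw [h]
      simp
    · have : (dn d' a : ℝ) ≠ 0 := by exact_mod_cast h.ne'
      rw [mul_one_div_cancel this]
  refine (Finset.sum_le_sum fun d' _ => h2 d').trans (le_of_eq ?_)
  rw [Finset.sum_const, Finset.card_univ, Fintype.card_fun, Fintype.card_fin, Fintype.card_fin,
    nsmul_eq_mul, mul_one]
  push_cast
  rfl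

end Pool.Agent.H89.TAS
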